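import Pool.Agent.H96.RsaB
import Pool.Agent.H96.RsaE

/-!
# The variance constant of random sequential adsorption of `r`-mers

`jammingCount r n` is the law of the number `C_n` of `r`-mers in the jammed configuration of
random sequential adsorption on the sites `{1, …, n}`: starting from the empty configuration, each
placement is uniform among the blocks of `r` consecutive uncovered sites, until there is none.

With `E r x = exp (-2 ∑_{k=1}^{r-1} (1 - x^k)/k)`, `F r x = ∫₀ˣ E r` and
`p r x = 1 + x + ⋯ + x^(r-2)`, the limit of `Var(C_n)/n` is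
`v r = (3r-2) F(1)² - F(1) + ∫₀¹ (p'(x) F(x)²/E(x) - 2 p(x) F(x)) dx`.
-/

open MeasureTheory ProbabilityTheory Filter Topology

namespace Pool.Agent.Results.MP_669328_pr.JammingVariance

open Pool.Agent.H96.Rsa

/-- The asymptotic variance constant. -/
noncomputable def v (r : ℕ) : ℝ :=
  (3 * r - 2) * F r 1 ^ 2 - F r 1 +
    ∫ x in (0 : ℝ)..1, (p' r x * F r x ^ 2 / E r x - 2 * (p r x * F r x))

/-- Sanity check (not used below): after `n` placements the process on `{1, …, n}` has stopped,
so `jammingCount r n` is the law of the total number of placements. -/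
theorem placed_eq_jammingCount {r : ℕ} (hr : 1 ≤ r) {n k : ℕ} (hk : n ≤ k) :
    placed r n k ∅ = jammingCount r n := by
  have key : ∀ (k : ℕ) (A : Finset ℕ), (free r n A).card ≤ k →
      placed r n (k + 1) A = placed r n k A := by
    intro k
    induction k with
    | zero =>
      intro A hA
      have h0 : free r n A = ∅ := Finset.card_eq_zero.mp (by omega)
      have h1 : ¬ (free r n A).Nonempty := by simp [h0]
      have h2 : placed r n (0 + 1) A = PMF.pure 0 := by rw [placed, dif_neg h1]
      rw [h2, placed]
    | succ k ih =>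
      intro A hA
      by_cases h : (free r n A).Nonempty
      · rw [placed, dif_pos h]
        conv_rhs => rw [placed, dif_pos h]
        ext c
        rw [PMF.bind_apply, PMF.bind_apply]
        apply tsum_congr
        intro i
        by_cases hi : i ∈ free r n A
        · rw [ih _ (by
            rw [free_union hr]
            have := rest_card_lt (r := r) hi
            omega)]
        · rw [PMF.uniformOfFinset_apply_of_notMem _ hi, zero_mul, zero_mul]
      · have h2 : ∀ j, placed r n (j + 1) A = PMF.pure 0 := fun j => by rw [placed, dif_neg h]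
        rw [h2, h2]
  obtain ⟨m, rfl⟩ := Nat.exists_eq_add_of_le hk
  clear hk
  induction m with
  | zero => rfl
  | succ m ih =>
    rw [← ih, ← add_assoc]
    apply key
    rw [free_empty hr, Nat.card_Ico]
    omega

/-- **Variance of the jamming count.** For every `r ≥ 1`, `Var(C_n)/n → v r`; more precisely
`Var(C_n) = v(r) (n + r) + O(2^{-n})`. -/
theorem result (r : ℕ) (hr : 1 ≤ r) :
    Tendsto (fun n : ℕ =>
      variance (fun c : ℕ => (c : ℝ)) (jammingCount r n).toMeasure / n) atTop (𝓝 (v r)) ∧
    ∃ K : ℝ, ∀ n : ℕ,
      |variance (fun c : ℕ => (c : ℝ)) (jammingCount r n).toMeasure - v r * ((n : ℝ) + r)|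
        ≤ K * (1 / 2) ^ n := by
  have h : Rec r (x r) (y r) := mkRec hr (fun _ hj => x_small hj) (fun _ hj => y_small hj)
    (x_rec hr) (y_rec hr)
  obtain ⟨K, hK⟩ := h.bound
  have hK' : ∀ n : ℕ,
      |variance (fun c : ℕ => (c : ℝ)) (jammingCount r n).toMeasure - v r * ((n : ℝ) + r)|
        ≤ K * (1 / 2) ^ n := by
    intro n
    rw [variance_jammingCount hr]
    exact hK n
  exact ⟨tendsto_div_of_bound hK', K, hK'⟩

end Pool.Agent.Results.MP_669328_pr.JammingVariance
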